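import Mathlib
import Pool.Agent.Moser3.Main

set_option autoImplicit false

namespace Pool.Agent.Results.MP_7871bc_co.DensityFormula

open Filter Topology

/-- The set of all values `∑ |O P_i| ^ 2`, over all `n`-tuples of points of three-dimensional Euclidean
space with mutual distances at least `2` and all points `O`. Its infimum is `S_3(n)`. -/
def moments (n : ℕ) : Set ℝ :=
  {s | ∃ (P : Fin n → EuclideanSpace ℝ (Fin 3)) (O : EuclideanSpace ℝ (Fin 3)),
    (∀ i j, i ≠ j → 2 ≤ dist (P i) (P j)) ∧ s = ∑ i, dist O (P i) ^ 2}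

/-- `S_3(n)`. -/
noncomputable def S3 (n : ℕ) : ℝ := sInf (moments n)

/-- The largest number of points of the closed ball of radius `R` about the origin of
three-dimensional Euclidean space which have mutual distances at least `2`, that is, of centres of
non-overlapping unit balls. (The set of these numbers is nonempty and bounded.) -/
noncomputable def ballNumber (R : ℝ) : ℕ :=
  sSup {k : ℕ | ∃ P : Fin k → EuclideanSpace ℝ (Fin 3),
    (∀ i j, i ≠ j → 2 ≤ dist (P i) (P j)) ∧ ∀ i, ‖P i‖ ≤ R}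

/-- For every `R` the set in the definition of `ballNumber` is bounded above, so that
`ballNumber R` is its maximum. -/
theorem bddAbove (R : ℝ) : BddAbove {k : ℕ | ∃ P : Fin k → EuclideanSpace ℝ (Fin 3),
    (∀ i j, i ≠ j → 2 ≤ dist (P i) (P j)) ∧ ∀ i, ‖P i‖ ≤ R} := by
  have h := Pool.Agent.Moser3.cards_bdd R
  rw [← Pool.Agent.Moser3.ballNumbers_eq] at h
  exact h

/-- The limit `Δ` of `ballNumber R / R ^ 3` (the density of the densest packings of unit balls of
three-dimensional space) exists and is positive, and for every `n ≥ 1`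
`(3/5) Δ^(-2/3) n^(5/3) - 4 Δ^(-1/3) n^(4/3) ≤ S_3(n) ≤ (3/5) Δ^(-2/3) n^(5/3) + 49 n`. -/
theorem result : ∃ Δ : ℝ, 0 < Δ ∧
    Tendsto (fun R : ℝ => (ballNumber R : ℝ) / R ^ 3) atTop (𝓝 Δ) ∧
    ∀ n : ℕ, 1 ≤ n →
      3 / 5 * Δ ^ (-(2 : ℝ) / 3) * (n : ℝ) ^ ((5 : ℝ) / 3) -
          4 * Δ ^ (-(1 : ℝ) / 3) * (n : ℝ) ^ ((4 : ℝ) / 3) ≤ S3 n ∧
        S3 n ≤ 3 / 5 * Δ ^ (-(2 : ℝ) / 3) * (n : ℝ) ^ ((5 : ℝ) / 3) + 49 * n :=
  ⟨Pool.Agent.Moser3.dens, Pool.Agent.Moser3.dens_pos, Pool.Agent.Moser3.tendsto_ballNumbers,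
    fun _ hn => Pool.Agent.Moser3.estimate hn⟩

end Pool.Agent.Results.MP_7871bc_co.DensityFormula
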