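import Mathlib
import Pool.Agent.Moser.Basic

set_option autoImplicit false

namespace Pool.Agent.Results.MP_7871bc_co.ExactFive

/-- The set of all values `∑ |O P_i| ^ 2`, over all `n`-tuples of points of three-dimensional Euclidean
space with mutual distances at least `2` and all points `O`. Its infimum is `S_3(n)`. -/
def moments (n : ℕ) : Set ℝ :=
  {s | ∃ (P : Fin n → EuclideanSpace ℝ (Fin 3)) (O : EuclideanSpace ℝ (Fin 3)),
    (∀ i j, i ≠ j → 2 ≤ dist (P i) (P j)) ∧ s = ∑ i, dist O (P i) ^ 2}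

/-- `S_3(5) = 28 / 3`, attained (by the triangular bipyramid with all nine edges of length `2` and
its centre). -/
theorem result : IsLeast (moments 5) (28 / 3) := by
  constructor
  · have h3 : Real.sqrt 3 * Real.sqrt 3 = 3 := Real.mul_self_sqrt (by norm_num)
    have h6 : Real.sqrt 6 * Real.sqrt 6 = 6 := Real.mul_self_sqrt (by norm_num)
    have h3' : 0 ≤ Real.sqrt 3 := Real.sqrt_nonneg 3
    have h6' : 0 ≤ Real.sqrt 6 := Real.sqrt_nonneg 6
    refine ⟨![!₂[2 * Real.sqrt 3 / 3, 0, 0], !₂[- Real.sqrt 3 / 3, 1, 0], !₂[- Real.sqrt 3 / 3, -1, 0],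
      !₂[0, 0, 2 * Real.sqrt 6 / 3], !₂[0, 0, - (2 * Real.sqrt 6 / 3)]], 0, ?_, ?_⟩
    · intro i j hij
      rw [EuclideanSpace.dist_eq]
      apply Real.le_sqrt_of_sq_le
      fin_cases i <;> fin_cases j <;>
        simp [Fin.sum_univ_three, Real.dist_eq] at hij ⊢ <;> nlinarith
    · simp [Fin.sum_univ_succ, EuclideanSpace.norm_eq]
      rw [Real.sq_sqrt (by positivity), Real.sq_sqrt (by positivity), Real.sq_sqrt (by positivity)]
      nlinarith
  · rintro s ⟨P, O, hP, rfl⟩
    have h := Pool.Agent.Moser.lower_bound (by norm_num) P hP O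
    refine le_trans (le_of_eq ?_) h
    norm_num

end Pool.Agent.Results.MP_7871bc_co.ExactFive
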