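import Mathlib
import Pool.Agent.Moser.Basic

set_option autoImplicit false

namespace Pool.Agent.Results.MP_7871bc_co.ImprovedLowerBound

/-- For every `n ≥ 5`, all points `P_1, …, P_n` of three-dimensional Euclidean space with mutual
distances at least `2` and every point `O` satisfy
`∑ |O P_i| ^ 2 ≥ 2 (n - 1) + 4 (n - 4) / (n - 2)`. -/
theorem result (n : ℕ) (hn : 5 ≤ n) (P : Fin n → EuclideanSpace ℝ (Fin 3))
    (hP : ∀ i j, i ≠ j → 2 ≤ dist (P i) (P j)) (O : EuclideanSpace ℝ (Fin 3)) :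
    2 * ((n : ℝ) - 1) + 4 * ((n : ℝ) - 4) / ((n : ℝ) - 2) ≤ ∑ i, dist O (P i) ^ 2 :=
  Pool.Agent.Moser.lower_bound (by omega) P hP O

end Pool.Agent.Results.MP_7871bc_co.ImprovedLowerBound
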